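import Pool.Agent.Lib.MP_5ef378_an.SX.Final2_31
import Pool.Agent.Lib.MP_5ef378_an.SX.All53

/-!
# The 4-linear simplex Hilbert transform on `L^4` when two of the four functions split

`Form f g h k ε N` is the truncated form `Λ_{4,ε,N}(f, g, h, k)` of the problem.  Suppose that there
are two variables `x_i ≠ x_j` such that each of the two functions which contain both of them is the
product of a continuous function without `x_i` and a continuous function without `x_j`; the other
two functions are arbitrary.  Then the `L^4` bound of the question holds, uniformly in the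
truncations, with an absolute constant.  For the pair `x_1, x_4` this is the case
`h (x_3, x_4, x_1) = a (x_3, x_4) b (x_3, x_1)`, `k (x_4, x_1, x_2) = a' (x_4, x_2) b' (x_1, x_2)`,
with arbitrary `f` and `g`.
-/

set_option autoImplicit false

open MeasureTheory Filter Topology

namespace Pool.Agent.Results.MP_5ef378_an.PairSplit

/-- The truncated form `Λ_{4,ε,N}(f, g, h, k)`. -/
noncomputable def Form (f g h k : (Fin 3 → ℝ) → ℝ) (ε N : ℝ) : ℝ :=
  ∫ x : Fin 4 → ℝ, Set.indicator {y : Fin 4 → ℝ | ε < |∑ i, y i| ∧ |∑ i, y i| < N}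
    (fun y : Fin 4 → ℝ => f ![y 0, y 1, y 2] * g ![y 1, y 2, y 3] * h ![y 2, y 3, y 0] *
      k ![y 3, y 0, y 1] / ∑ i, y i) x

/-- The four functions as functions on `ℝ⁴`; number `m` does not contain the variable number `m`
(the variables have the numbers `0, 1, 2, 3`). -/
def Fam (f g h k : (Fin 3 → ℝ) → ℝ) : Fin 4 → (Fin 4 → ℝ) → ℝ :=
  ![fun x => g ![x 1, x 2, x 3], fun x => h ![x 2, x 3, x 0], fun x => k ![x 3, x 0, x 1],
    fun x => f ![x 0, x 1, x 2]]

/-- `a` does not depend on the variable number `i`. -/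
def Without (i : Fin 4) (a : (Fin 4 → ℝ) → ℝ) : Prop :=
  ∀ x y : Fin 4 → ℝ, (∀ l, l ≠ i → x l = y l) → a x = a y

/-- `F = a b` with `a`, `b` continuous, `a` without variable `i`, `b` without variable `j`. -/
def Splits (i j : Fin 4) (F : (Fin 4 → ℝ) → ℝ) : Prop :=
  ∃ a b : (Fin 4 → ℝ) → ℝ, Continuous a ∧ Continuous b ∧ Without i a ∧ Without j b ∧
    ∀ x, F x = a x * b x

theorem result : ∃ C : ℝ, ∀ f g h k : (Fin 3 → ℝ) → ℝ,
    Continuous f → HasCompactSupport f → Continuous g → HasCompactSupport g →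
    Continuous h → HasCompactSupport h → Continuous k → HasCompactSupport k →
    ∀ i j : Fin 4, i ≠ j → (∀ m, m ≠ i → m ≠ j → Splits i j (Fam f g h k m)) →
      (∀ ε N : ℝ, 0 < ε → ε < N → |Form f g h k ε N| ≤
        C * (eLpNorm f 4 volume).toReal * (eLpNorm g 4 volume).toReal *
          (eLpNorm h 4 volume).toReal * (eLpNorm k 4 volume).toReal) ∧
      ∀ L : ℝ, Tendsto (fun p : ℝ × ℝ => Form f g h k p.1 p.2)
        ((nhdsWithin (0 : ℝ) (Set.Ioi 0)) ×ˢ atTop) (nhds L) → |L| ≤
        C * (eLpNorm f 4 volume).toReal * (eLpNorm g 4 volume).toReal *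
          (eLpNorm h 4 volume).toReal * (eLpNorm k 4 volume).toReal := by
  obtain ⟨C, hC⟩ := Pool.Agent.Lib.MP_5ef378_an.SH31.main2 Pool.Agent.Lib.SX53.all53
  refine ⟨C, fun f g h k hf hf' hg hg' hh hh' hk hk' i j hij hs => ?_⟩
  have key := hC f g h k hf hf' hg hg' hh hh' hk hk' i j hij hs
  exact ⟨key, fun L hL => Pool.Agent.Lib.MP_5ef378_an.SH31.pv key hL⟩

end Pool.Agent.Results.MP_5ef378_an.PairSplit
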